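import Mathlib
import Pool.Agent.W5h23.G.Maps

set_option autoImplicit false

/-!
# Benford's law in base three for all trajectories of the 3x+1 function

Both branches of the 3x+1 function `T`, `n / 2` and `(3 n + 1) / 2`, change `log_3 n` by `- log_3 2`
modulo `1` (up to `O(1 / n)`). Hence the trajectories follow the rotation by `log_3 2`, whose quality of
approximation is controlled by the linear forms in `log 2` and `log 3`. The small terms, at which the
error accumulates, are few as long as the terms are different. So for every `n` which reaches `1` the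
`σ_∞(n)` terms before `1` obey Benford's law in base three, with a power saving in `σ_∞(n)`; for example
the number of the terms with leading digit `1` in base three is `σ_∞(n) log_3 2 + O(σ_∞(n) ^ (27/28))`.
-/

namespace Pool.Agent.Results.MP_f7abf1_nt.BenfordBaseThree

/-- The 3x+1 function. -/
def T (n : ℕ) : ℕ := if n % 2 = 0 then n / 2 else (3 * n + 1) / 2

/-- The total stopping time `σ_∞(n)` (meaningful if `n` reaches `1`). -/
noncomputable def sigma (n : ℕ) : ℕ := sInf {k | T^[k] n = 1}

/-- The base three mantissa (the fractional part of `log_3`) of `m` is in `[A, B)`. -/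
def Mantissa (A B : ℝ) (m : ℕ) : Prop :=
  A ≤ Int.fract (Real.logb 3 m) ∧ Int.fract (Real.logb 3 m) < B

open Classical in
/-- There is a constant `c` such that for all `0 ≤ A ≤ B ≤ 1` and every `n ≥ 1`: (1) if the terms
`n, T n, ..., T ^ (K-1) n` are different then the number of those with a base three mantissa in `[A, B)`
differs from `(B - A) K` by at most `c K ^ (27/28)`; (2) if `n` reaches `1` then the number of
`i < σ_∞(n)` for which `T ^ i n` has a base three mantissa in `[A, B)` differs from `(B - A) σ_∞(n)` by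
at most `c σ_∞(n) ^ (27/28)`. -/
theorem result : ∃ c : ℝ, ∀ A B : ℝ, 0 ≤ A → A ≤ B → B ≤ 1 → ∀ n : ℕ, 0 < n →
    (∀ K : ℕ, Set.InjOn (fun i => T^[i] n) (Set.Iio K) →
      |(((Finset.range K).filter fun i => Mantissa A B (T^[i] n)).card : ℝ) - (B - A) * K| ≤
        c * (K : ℝ) ^ (27 / 28 : ℝ)) ∧
    ((∃ k, T^[k] n = 1) →
      |(((Finset.range (sigma n)).filter fun i => Mantissa A B (T^[i] n)).card : ℝ) -
        (B - A) * sigma n| ≤ c * (sigma n : ℝ) ^ (27 / 28 : ℝ)) := by
  obtain ⟨c, hc⟩ := Pool.Agent.W5h23.G.benford_T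
  refine ⟨c, ?_⟩
  intro A B hA hAB hB n hn
  have hT : ∀ m : ℕ, ((T m : ℕ) : ℤ) = Pool.Agent.TH926.OSG.T 3 1 m := by
    intro m
    rw [T, Pool.Agent.TH926.OSG.T]
    split_ifs <;> omega
  have hTi : ∀ i : ℕ, ((T^[i] n : ℕ) : ℤ) = (Pool.Agent.TH926.OSG.T 3 1)^[i] n := by
    intro i
    induction i with
    | zero => rfl
    | succ i ih => rw [Function.iterate_succ_apply', Function.iterate_succ_apply', hT, ih]
  have hTr : ∀ i : ℕ, |(((Pool.Agent.TH926.OSG.T 3 1)^[i] n : ℤ) : ℝ)| = ((T^[i] n : ℕ) : ℝ) := by
    intro i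
    rw [← hTi]
    simp
  have h1 : ∀ K : ℕ, Set.InjOn (fun i => T^[i] n) (Set.Iio K) →
      |(((Finset.range K).filter fun i => Mantissa A B (T^[i] n)).card : ℝ) - (B - A) * K| ≤
        c * (K : ℝ) ^ (27 / 28 : ℝ) := by
    intro K hK
    have h := hc 1 (by norm_num) (n : ℤ) K (by
      intro i hi j hj hij
      apply hK hi hj
      have h2 : (Pool.Agent.TH926.OSG.T 3 1)^[i] (n : ℤ) = (Pool.Agent.TH926.OSG.T 3 1)^[j] n := hij
      rw [← hTi, ← hTi] at h2
      exact_mod_cast h2) A B hA hAB hB
    simp only [hTr, Int.cast_one, abs_one, Real.one_rpow, mul_one] at h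
    convert h using 6
    exact Iff.rfl
  refine ⟨h1, ?_⟩
  intro hex
  apply h1
  have hmin : T^[sigma n] n = 1 := Nat.sInf_mem (s := {k | T^[k] n = 1}) hex
  have hlt : ∀ i j : ℕ, i < j → j < sigma n → T^[i] n ≠ T^[j] n := by
    intro i j hij hj h
    have h2 : T^[(sigma n - j) + i] n = 1 := by
      rw [Function.iterate_add_apply, h, ← Function.iterate_add_apply, Nat.sub_add_cancel hj.le]
      exact hmin
    have h3 : sigma n ≤ (sigma n - j) + i := Nat.sInf_le h2
    omega
  intro i hi j hj hij
  rcases lt_trichotomy i j with h | h | h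
  · exact absurd hij (hlt i j h hj)
  · exact h
  · exact absurd hij.symm (hlt j i h hi)

end Pool.Agent.Results.MP_f7abf1_nt.BenfordBaseThree
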