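import Mathlib
import Pool.Agent.W5h45.EK.B4

/-!
# The Erdős–Kac law along almost all trajectories of the 3x+1 function, with independence

Let `Z m = (ω m - log log m) / √(log log m)`, where `ω m` is the number of the prime factors of `m`.
Along almost every trajectory the values `Z (T^k n)` are normally distributed: for almost all `n` (natural
density) the proportion of the `k` with `Z (T^k n) ≤ y` tends to the normal distribution function at `y`,
along the complete trajectory if `n` reaches `1`, and along the first `κ log n` terms, `κ < 2 / log (4/3)`,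
for all `n`. Moreover consecutive terms are independent, as far as they can be: `m` and `m / 2` have the same
odd prime factors, so a term and the following one are independent only if the first one is odd. We show that
the values of `Z` at any finite set of places of a window of the trajectory, two of which are always separated
by an odd term, are asymptotically independent of each other and of the parities of the `R` terms of the
window, i.e. of the class of its first term modulo `2 ^ R`. All this holds with arbitrary bounded weights.

The proof. (A) For pairwise non-proportional linear forms `a_i n + b_i` the numbers of the prime factors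
of the values satisfy a joint Erdős–Kac theorem with independent normal limits. We prove this from
scratch: the mean value of the exponentials of the numbers of the medium prime factors is found
with the Brun–Rankin truncation, large prime factors are negligible by Mertens' theorem, and Lévy's theorem gives
the limit law. (B) The terms of the window starting at `2 ^ R n + r` are linear forms in `n`, and those at places
separated by odd terms are not proportional, neither for the same nor for different starting points in a short
progression. So the averages of the indicator function of the window event over short progressions have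
small variance. (C) By the sampling principle of the starting files (`MP_2d22f3_nt.SamplingPrinciple`) almost every
trajectory meets the event with the right frequency.
-/

set_option autoImplicit false

namespace Pool.Agent.Results.MP_f7abf1_nt.ErdosKac

open Filter Topology ProbabilityTheory

/-- the `3x+1` function -/
def T (n : ℕ) : ℕ := if n % 2 = 0 then n / 2 else (3 * n + 1) / 2

/-- `t` is the total stopping time of `n` -/
def IsTotalStoppingTime (n t : ℕ) : Prop := T^[t] n = 1 ∧ ∀ j < t, T^[j] n ≠ 1

/-- the positive integers with the property `P` have the natural density `δ` -/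
def HasDensity (P : ℕ → Prop) (δ : ℝ) : Prop :=
  Tendsto (fun N : ℕ => ({n : ℕ | 1 ≤ n ∧ n ≤ N ∧ P n}.ncard : ℝ) / N) atTop (𝓝 δ)

/-- the normalised number of the prime factors of `m` -/
noncomputable def Z (m : ℕ) : ℝ :=
  ((m.primeFactors.card : ℝ) - Real.log (Real.log m)) / Real.sqrt (Real.log (Real.log m))

/-- the distribution function of the standard normal law -/
noncomputable def Phi (y : ℝ) : ℝ := (gaussianReal 0 1).real (Set.Iic y)

/-- `J` is a set of numbers `≤ R`, and between any two elements `j < j'` of it there is an `i`,
`j ≤ i < j'`, for which `T^i r` is odd -/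
def Separated (R r : ℕ) (J : Finset ℕ) : Prop :=
  (∀ j ∈ J, j ≤ R) ∧ ∀ j ∈ J, ∀ j' ∈ J, j < j' → ∃ i, j ≤ i ∧ i < j' ∧ T^[i] r % 2 = 1

open Classical in
/-- the weighted number of the `k < s` for which `T^k n ≡ r` modulo `2 ^ R` (i.e. the parities of
`T^k n, …, T^(k+R-1) n` are those of `r, …, T^(R-1) r`) and `Z (T^(k+j) n) ≤ y j` for all `j ∈ J`, minus its
expected value, in which the frequency of these `k` is `∏ Φ (y j) / 2 ^ R` -/
noncomputable def discrepancy (R r : ℕ) (J : Finset ℕ) (y w : ℕ → ℝ) (s n : ℕ) : ℝ :=
  ∑ k ∈ Finset.range s, w k * ((if T^[k] n % 2 ^ R = r % 2 ^ R ∧ ∀ j ∈ J, Z (T^[k + j] n) ≤ y j then 1 else 0) -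
    (∏ j ∈ J, Phi (y j)) / 2 ^ R)

theorem discrepancy_eq (R r : ℕ) (J : Finset ℕ) (y w : ℕ → ℝ) (s n : ℕ) :
    discrepancy R r J y w s n = Pool.Agent.W5h45.EK.Fw R r J y w n s := by
  classical
  unfold discrepancy Pool.Agent.W5h45.EK.Fw
  refine Finset.sum_congr rfl fun k _ => ?_
  unfold Pool.Agent.W5h45.EK.gn
  congr 2
  have h : (T^[k] n % 2 ^ R = r % 2 ^ R ∧ ∀ j ∈ J, Z (T^[k + j] n) ≤ y j) ↔
      ((Pool.Agent.W5h45.EK.T)^[k] n % 2 ^ R = r % 2 ^ R ∧ ∀ j ∈ J,
        Pool.Agent.W5h45.EK.Z ((Pool.Agent.W5h45.EK.T)^[j] ((Pool.Agent.W5h45.EK.T)^[k] n)) ≤ y j) := by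
    refine and_congr Iff.rfl (forall₂_congr fun j _ => ?_)
    rw [← Function.iterate_add_apply, add_comm j k]
    exact Iff.rfl
  simp only [h]

/-- Let `1 ≤ r ≤ 2 ^ R`, let `J` be separated, let `y` be thresholds and `w` weights with `|w k| ≤ 1`.
(1) Complete trajectories: the `n` which reach `1` and have an initial segment, of length `s ≤ σ_∞(n)`, of their
trajectory with a discrepancy of more than `ε σ_∞(n)` have natural density `0`. (2) The `n` for which the
discrepancy is more than `ε log n` for some `s ≤ κ log n` have natural density `0`, for every `κ < 2 / log (4/3)`. -/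
theorem result (R r : ℕ) (hr : 1 ≤ r) (hr2 : r ≤ 2 ^ R) (J : Finset ℕ) (hJ : Separated R r J) (y w : ℕ → ℝ)
    (hw : ∀ k, |w k| ≤ 1) (ε : ℝ) (hε : 0 < ε) :
    HasDensity (fun n => ∃ t : ℕ, IsTotalStoppingTime n t ∧ ∃ s ≤ t, ε * t < |discrepancy R r J y w s n|) 0 ∧
    ∀ κ : ℝ, κ < 2 / Real.log (4 / 3) →
      HasDensity (fun n => ∃ s : ℕ, (s : ℝ) ≤ κ * Real.log n ∧ ε * Real.log n < |discrepancy R r J y w s n|) 0 := by
  constructor
  · have h := Pool.Agent.W5h45.EK.part2 hr hr2 hJ y hw hε
    refine Pool.Agent.H499R2.ND.zd_mono h ?_
    rintro n _ ⟨t, ht, s, hs, g⟩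
    rw [discrepancy_eq] at g
    exact ⟨t, ht, s, hs, g⟩
  · intro κ hκ
    have h := Pool.Agent.W5h45.EK.part1' hr hr2 hJ y hw κ ε hκ hε
    refine Pool.Agent.H499R2.ND.zd_mono h ?_
    rintro n _ ⟨s, hs, g⟩
    rw [discrepancy_eq] at g
    exact ⟨s, hs, g⟩

end Pool.Agent.Results.MP_f7abf1_nt.ErdosKac
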