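import Mathlib
import Pool.Agent.W5h47.BD.D

/-!
# Benford's law in all real bases along almost all complete trajectories of the 3x+1 function

For almost all `n` which reach `1` (natural density) the `σ_∞(n)` terms of the trajectory before `1`
obey Benford's law, simultaneously in all real bases `B` of any given interval `[B₀, B₁]`, `B₀ > 1`: for
every initial segment of the trajectory and every interval `[a, b)` the number of the terms for which
the fractional part of `log_B` is in `[a, b)` is `b - a` times the length of the segment, up to
`ε σ_∞(n)`. For all `n`, whether they reach `1` or not, the same holds for the first `κ log n` terms,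
`κ < 2 / log (4/3)`; these are the terms down to the size `n ^ c`, where `c → 0` as `κ → 2 / log (4/3)`.

The proof. Let `y_k` be the terms. A term is multiplied by `1/2` or (almost) `3/2` in the next step,
according to its parity, so the sum of `exp (2 π i θ log y)` over a window of `L` consecutive terms has
the absolute value of a sum which depends only on the first term of the window modulo `2 ^ L`. Its
quadratic mean over the classes is `O(√L)`, uniformly for `θ` in a compact set without `0`, because the
average of the two factors `2 ^ (-2 π i θ)` and `(3/2) ^ (2 π i θ)` is never `1`. By the sampling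
principle of the starting files (`MP_2d22f3_nt.SamplingPrinciple`) the windows along almost every
trajectory behave on average like the classes modulo `2 ^ L`. Hence the exponential sums over the
trajectory are small, uniformly in `θ`, and an inequality of Erdos-Turan type gives the claim for
`κ log n` terms. The remaining terms are few, by the law of large numbers for the total stopping time.
-/

set_option autoImplicit false

namespace Pool.Agent.Results.MP_f7abf1_nt.LeadingDigits

open Filter Topology

/-- the `3x+1` function -/
def T (n : ℕ) : ℕ := if n % 2 = 0 then n / 2 else (3 * n + 1) / 2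

/-- `t` is the total stopping time of `n` -/
def IsTotalStoppingTime (n t : ℕ) : Prop := T^[t] n = 1 ∧ ∀ j < t, T^[j] n ≠ 1

/-- the positive integers with the property `P` have the natural density `δ` -/
def HasDensity (P : ℕ → Prop) (δ : ℝ) : Prop :=
  Tendsto (fun N : ℕ => ({n : ℕ | 1 ≤ n ∧ n ≤ N ∧ P n}.ncard : ℝ) / N) atTop (𝓝 δ)

/-- the number of the `k < s` for which the fractional part of `log_B (T^k n)` is in `[a, b)` -/
noncomputable def count (B a b : ℝ) (s n : ℕ) : ℕ :=
  {k : ℕ | k < s ∧ a ≤ Int.fract (Real.logb B (T^[k] n)) ∧ Int.fract (Real.logb B (T^[k] n)) < b}.ncard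

/-- for some real base `B` in `[B₀, B₁]` and some interval `[a, b)` in `[0, 1)` the number of the
`k < s` for which the fractional part of `log_B (T^k n)` is in `[a, b)` differs from `(b - a) s` by
more than `E` -/
def Deviates (B₀ B₁ E : ℝ) (s n : ℕ) : Prop :=
  ∃ B a b : ℝ, B₀ ≤ B ∧ B ≤ B₁ ∧ 0 ≤ a ∧ a ≤ b ∧ b ≤ 1 ∧ E < |(count B a b s n : ℝ) - (b - a) * s|

theorem count_eq (B a b : ℝ) (s n : ℕ) : count B a b s n = Pool.Agent.W5h47.BD.cnt B a b s n := by
  unfold count Pool.Agent.W5h47.BD.cnt
  rw [← Set.ncard_coe_finset]
  congr 1
  ext k
  rw [Finset.mem_coe, Finset.mem_filter, Finset.mem_range]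
  exact Iff.rfl

/-- (1) Complete trajectories: the `n` which reach `1` and have an initial segment, of length
`s ≤ σ_∞(n)`, of their trajectory which deviates from Benford's law for some base in `[B₀, B₁]` and
some interval by more than `ε σ_∞(n)` have natural density `0`. (2) The `n` which deviate from
Benford's law for some base in `[B₀, B₁]`, some interval and some `s ≤ κ log n` by more than
`ε log n` have natural density `0`, for every `κ < 2 / log (4/3)`. -/
theorem result (B₀ B₁ ε : ℝ) (hB₀ : 1 < B₀) (hε : 0 < ε) :
    HasDensity (fun n => ∃ t : ℕ, IsTotalStoppingTime n t ∧ ∃ s ≤ t, Deviates B₀ B₁ (ε * t) s n) 0 ∧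
    ∀ κ : ℝ, κ < 2 / Real.log (4 / 3) →
      HasDensity (fun n => ∃ s : ℕ, (s : ℝ) ≤ κ * Real.log n ∧ Deviates B₀ B₁ (ε * Real.log n) s n) 0 := by
  constructor
  · have h := Pool.Agent.W5h47.BD.part2 ε B₀ B₁ hε hB₀
    refine Pool.Agent.H499R2.ND.zd_mono h ?_
    rintro n _ ⟨t, ht, s, hs, B, a, b, g1, g2, g3, g4, g5, g6⟩
    rw [count_eq] at g6
    exact ⟨t, ht, s, hs, B, a, b, g1, g2, g3, g4, g5, g6⟩
  · intro κ hκ
    have h := Pool.Agent.W5h47.BD.part1 κ ε B₀ B₁ hκ hε hB₀
    refine Pool.Agent.H499R2.ND.zd_mono h ?_
    rintro n _ ⟨s, hs, B, a, b, g1, g2, g3, g4, g5, g6⟩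
    rw [count_eq] at g6
    exact ⟨s, hs, B, a, b, g1, g2, g3, g4, g5, g6⟩

end Pool.Agent.Results.MP_f7abf1_nt.LeadingDigits
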