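import Pool.Agent.W5h24.BC.J

/-!
# The longest runs of odd and of even terms in complete `3x+1` trajectories

In the repeated random walk model the trajectory of `n` has about `6.95 log n` steps, which are
independent fair coins, and the longest block of equal steps has the length `log_2 log n + O(1)` in
probability (Erdős and Rényi). Here this is proved for the true trajectories of almost all `n`: for
almost all `n` which reach `1` (natural density) the longest block of consecutive odd terms, and the
longest block of consecutive even terms, of the COMPLETE trajectory has the length `log_2 log n` up to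
an arbitrarily slowly growing error. For the first `log_2 n` steps this follows from the theorem of
Terras (the parities of the first steps are independent); the point is the upper bound for the other
5/6 of the trajectory, on which nothing is periodic, and down to the bounded terms.

The proof. The new tool is a Borel-Cantelli lemma for trajectories (`W5h24.BC.F`, theorem
`count_all`): if a set `A` has density at most `φ(j)` at the scale `2 ^ j` in all classes modulo `3 ^ M`,
`M ≤ θ j`, with `φ` decreasing, then the proportion of the `n ≤ N` the trajectories of which meet `A`
before they fall below `2 ^ J` is at most `C (∑ φ(j) + J ^ (-B))`, the sum over `J / 2 ≤ j ≤ log_2 N`. It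
reaches sets of density `1 / (log x) ^ (1 + ε)` and even, for sets depending on `N`, `ε / log N`; the
starting file `ThinSetsAvoided` needs density `exp (- (log x) ^ δ)`. The scales are divided into blocks
`[2 ^ (i ^ 2), 2 ^ ((i + 1) ^ 2))`; near a block the visits are counted exactly, class by class modulo
`2 ^ k` and modulo powers of three (first moment), and the bounds are propagated to all scales above the
block by the one-stage inequality and the fine scale mixing of the starting files. A block of `r` odd
(even) terms begins at a term `-1` (`0`) modulo `2 ^ r`. The lower bound comes from the first `log_2 n`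
steps and an exact recursion for the words without long runs.
-/

set_option autoImplicit false

namespace Pool.Agent.Results.MP_f7abf1_nt.LongestRuns

open Filter Topology

/-- the `3x+1` function -/
def T (n : ℕ) : ℕ := if n % 2 = 0 then n / 2 else (3 * n + 1) / 2

/-- the `R` terms number `k, k + 1, …, k + R - 1` of the trajectory of `n` have the parity `e` -/
def Run (e n k R : ℕ) : Prop := ∀ i < R, T^[k + i] n % 2 = e

/-- the longest block of consecutive terms of parity `e` in the trajectory of `n` has the length `R` -/
def IsLongestRun (e n R : ℕ) : Prop := (∃ k, Run e n k R) ∧ ¬ ∃ k, Run e n k (R + 1)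

/-- the positive integers with the property `P` have the natural density `δ` -/
def HasDensity (P : ℕ → Prop) (δ : ℝ) : Prop :=
  Tendsto (fun N : ℕ => ({n : ℕ | 1 ≤ n ∧ n ≤ N ∧ P n}.ncard : ℝ) / N) atTop (𝓝 δ)

/-- Let `e` be `0` or `1` and let `ψ n` tend to infinity. (1) For all `n` which reach `1`, outside a set of
density `0`, the longest block of consecutive terms of parity `e` in the trajectory of `n` has a length
`R` with `|R - log_2 log n| ≤ ψ n`. (2) If `f n` tends to infinity, then for all `n` outside a set of
density `0` (whether they reach `1` or not) no block of terms of parity `e` of a length at least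
`log_2 log n + ψ n` begins before the first term smaller than `f n`. -/
theorem result (e : ℕ) (he : e < 2) (ψ : ℕ → ℝ) (hψ : Tendsto ψ atTop atTop) :
    HasDensity (fun n => (∃ k, T^[k] n = 1) ∧
      ¬ ∃ R : ℕ, IsLongestRun e n R ∧ |(R : ℝ) - Real.logb 2 (Real.log n)| ≤ ψ n) 0 ∧
    ∀ f : ℕ → ℝ, Tendsto f atTop atTop → HasDensity (fun n => ∃ k R : ℕ,
      Real.logb 2 (Real.log n) + ψ n ≤ R ∧ Run e n k R ∧ ∀ j ≤ k, f n ≤ ((T^[j] n : ℕ) : ℝ)) 0 :=
  ⟨Pool.Agent.W5h24.BC.complete he hψ, fun _ hf => Pool.Agent.W5h24.BC.unbounded he hψ hf⟩

end Pool.Agent.Results.MP_f7abf1_nt.LongestRuns
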